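import Pool.Agent.H18.SAP.Stmts

/-!
# Project SAP, module GD2
-/

set_option autoImplicit false

namespace SAP
open Finset

private theorem GD2_sq (n : ℕ) (hn : 0 < n) : (n * n).totient = n * n.totient := by
  have h := Nat.totient_gcd_mul_totient_mul n n
  rw [Nat.gcd_self] at h
  have h1 : 0 < n.totient := Nat.totient_pos.mpr hn
  apply Nat.eq_of_mul_eq_mul_left h1
  rw [h]
  ring

private theorem GD2_prod {ι : Type*} [DecidableEq ι] (s : Finset ι) (f : ι → ℕ)
    (h : ∀ a ∈ s, ∀ b ∈ s, a ≠ b → (f a).Coprime (f b)) :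
    (∏ a ∈ s, f a).totient = ∏ a ∈ s, (f a).totient := by
  induction s using Finset.induction_on with
  | empty => simp
  | insert a s ha ih =>
    rw [prod_insert ha, prod_insert ha, Nat.totient_mul, ih]
    · intro b hb c hc hbc
      exact h b (mem_insert_of_mem hb) c (mem_insert_of_mem hc) hbc
    · apply Nat.Coprime.prod_right
      intro b hb
      exact h a (mem_insert_self _ _) b (mem_insert_of_mem hb) (fun hab => ha (hab ▸ hb))

private theorem GD2_six (n : ℕ) (h : ∀ p : ℕ, p.Prime → p ∣ n → 3 < p) : n.Coprime 6 := by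
  apply Nat.coprime_of_dvd
  intro p hp hpn hp6
  have h3 := h p hp hpn
  rw [show (6 : ℕ) = 2 * 3 by norm_num, hp.dvd_mul] at hp6
  rcases hp6 with h | h
  · have := Nat.le_of_dvd (by norm_num) h
    omega
  · have := Nat.le_of_dvd (by norm_num) h
    omega

private theorem GD2_pow (M : ℕ) (hM : 1 ≤ M) : (1 + 1 / (4 * (M : ℝ))) ^ M < 2 := by
  have hMr : (1 : ℝ) ≤ M := by exact_mod_cast hM
  set y : ℝ := 1 / (4 * (M : ℝ)) with hy
  have hy0 : 0 < y := by positivity
  have hyM : y * M = 1 / 4 := by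
    rw [hy]; field_simp
  have hy1 : y ≤ 1 / 4 := by nlinarith
  have h1 : 1 + (M : ℝ) * (-y) ≤ (1 + -y) ^ M := one_add_mul_le_pow (by linarith) M
  have h2 : (1 + y) ^ M * (1 + -y) ^ M ≤ 1 := by
    rw [← mul_pow]
    apply pow_le_one₀
    · nlinarith
    · nlinarith
  have h3 : (3 / 4 : ℝ) ≤ (1 + -y) ^ M := by nlinarith
  have h4 : 0 < (1 + y) ^ M := by positivity
  nlinarith

theorem gd2 : S_GD2 := by
  intro M T e t q S hM hG hS
  classical
  obtain ⟨a1, ha1⟩ : S.Nonempty := by
    rw [← card_pos]; omega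
  have htpos : ∀ a, 0 < t a := fun a => by have := hG.ht a; omega
  have hqpos : ∀ a, 0 < q a := fun a => (hG.hp a).pos
  have hqt : ∀ a b, (q a).Coprime (t b) := fun a b =>
    (Nat.Prime.coprime_iff_not_dvd (hG.hp a)).mpr (hG.ndvd a b)
  have htne : ∀ a b, a ≠ b → t a ≠ t b := by
    intro a b hab h
    have h1 := hG.cop a b hab
    rw [h, Nat.coprime_self] at h1
    have := hG.ht b
    omega
  have hqne : ∀ a b, a ≠ b → (q a).Coprime (q b) := by
    intro a b hab
    rw [Nat.coprime_primes (hG.hp a) (hG.hp b), hG.hq, hG.hq]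
    intro h
    have h1 : 2 * e ^ M * t a = 2 * e ^ M * t b := by omega
    have h2 : 0 < 2 * e ^ M := by
      have := pow_pos (show 0 < e from hG.he) M
      omega
    exact htne a b hab (Nat.eq_of_mul_eq_mul_left h2 h1)
  set f : Fin T → ℕ := fun a => q a * t a with hf
  have hfc : ∀ a b, a ≠ b → (f a).Coprime (f b) := by
    intro a b hab
    refine Nat.Coprime.mul_left (Nat.Coprime.mul_right (hqne a b hab) (hqt a b))
      (Nat.Coprime.mul_right (hqt b a).symm (hG.cop a b hab))
  have hft : ∀ a, (f a).totient = 2 * e ^ M * (t a * (t a).totient) := by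
    intro a
    rw [hf]
    simp only
    rw [Nat.totient_mul (hqt a a), Nat.totient_prime (hG.hp a), hG.hq a, Nat.add_sub_cancel]
    ring
  set P : ℕ := ∏ a ∈ S.erase a1, f a with hP
  have hPt : P.totient = ∏ a ∈ S.erase a1, (2 * e ^ M * (t a * (t a).totient)) := by
    rw [hP, GD2_prod _ _ (fun a _ b _ hab => hfc a b hab)]
    exact prod_congr rfl (fun a _ => hft a)
  have hcop : (t a1 * t a1).Coprime P := by
    apply Nat.Coprime.prod_right
    intro b hb
    have hne : a1 ≠ b := (ne_of_mem_erase hb).symm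
    have h1 : (t a1).Coprime (f b) := Nat.Coprime.mul_right (hqt b a1).symm (hG.cop a1 b hne)
    exact Nat.Coprime.mul_left h1 h1
  have hk : (t a1 * t a1 * P).totient =
      (t a1 * (t a1).totient) * ∏ a ∈ S.erase a1, (2 * e ^ M * (t a * (t a).totient)) := by
    rw [Nat.totient_mul hcop, GD2_sq _ (htpos a1), hPt]
  have hPpos : 0 < P := prod_pos (fun a _ => Nat.mul_pos (hqpos a) (htpos a))
  have hcardE : (S.erase a1).card = M - 1 := by rw [card_erase_of_mem ha1, hS]
  refine ⟨t a1 * t a1 * P, Nat.mul_pos (Nat.mul_pos (htpos _) (htpos _)) hPpos, ?_, ?_, ?_⟩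
  · -- cost
    rw [hk]
    have hcost : ∀ a, (f a : ℝ) ≤ (1 + 1 / (4 * (M : ℝ))) * ((f a).totient : ℝ) := by
      intro a
      have h1 := hG.cost a
      have hφ : (0 : ℝ) < (t a).totient := by exact_mod_cast Nat.totient_pos.mpr (htpos a)
      have hq1 : (0 : ℝ) < (q a : ℝ) - 1 := by
        have : (2 : ℝ) ≤ q a := by exact_mod_cast (hG.hp a).two_le
        linarith
      have h2 : ((f a).totient : ℝ) = (t a).totient * ((q a : ℝ) - 1) := by
        rw [hf]
        simp only
        rw [Nat.totient_mul (hqt a a), Nat.totient_prime (hG.hp a)]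
        rw [Nat.cast_mul, Nat.cast_sub (hG.hp a).one_lt.le]
        push_cast
        ring
      rw [h2]
      have h3 : (t a : ℝ) / (t a).totient * ((q a : ℝ) / (q a - 1)) =
          (f a : ℝ) / ((t a).totient * ((q a : ℝ) - 1)) := by
        rw [hf]
        push_cast
        rw [div_mul_div_comm]
        ring
      rw [h3, div_le_iff₀ (by positivity)] at h1
      exact h1
    have hcost1 : (t a1 : ℝ) ≤ (1 + 1 / (4 * (M : ℝ))) * ((t a1).totient : ℝ) := by
      have h1 := hG.cost a1
      have hφ : (0 : ℝ) < (t a1).totient := by exact_mod_cast Nat.totient_pos.mpr (htpos a1)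
      have hq1 : (0 : ℝ) < (q a1 : ℝ) - 1 := by
        have : (2 : ℝ) ≤ q a1 := by exact_mod_cast (hG.hp a1).two_le
        linarith
      have h2 : (1 : ℝ) ≤ (q a1 : ℝ) / (q a1 - 1) := by
        rw [le_div_iff₀ hq1]; linarith
      have h3 : (t a1 : ℝ) / (t a1).totient ≤ 1 + 1 / (4 * (M : ℝ)) := by
        refine le_trans ?_ h1
        have : (0 : ℝ) ≤ (t a1 : ℝ) / (t a1).totient := by positivity
        nlinarith
      rwa [div_le_iff₀ hφ] at h3
    have hprod : (P : ℝ) ≤ (1 + 1 / (4 * (M : ℝ))) ^ (M - 1) *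
        ∏ a ∈ S.erase a1, ((f a).totient : ℝ) := by
      rw [hP, Nat.cast_prod, ← hcardE, ← prod_const, ← prod_mul_distrib]
      exact prod_le_prod (fun _ _ => by positivity) (fun a _ => hcost a)
    have hall : ((t a1 * t a1 * P : ℕ) : ℝ) ≤ (1 + 1 / (4 * (M : ℝ))) ^ M *
        (((t a1 * (t a1).totient) *
          ∏ a ∈ S.erase a1, (2 * e ^ M * (t a * (t a).totient)) : ℕ) : ℝ) := by
      have h5 : ∀ a, ((f a).totient : ℝ) = ((2 * e ^ M * (t a * (t a).totient) : ℕ) : ℝ) := by
        intro a; rw [hft a]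
      have h6 : (1 + 1 / (4 * (M : ℝ))) ^ M =
          (1 + 1 / (4 * (M : ℝ))) * (1 + 1 / (4 * (M : ℝ))) ^ (M - 1) := by
        rw [← pow_succ', Nat.sub_add_cancel hM]
      rw [h6, Nat.cast_mul (t a1 * (t a1).totient), Nat.cast_prod]
      rw [← prod_congr rfl (fun a _ => h5 a)]
      rw [Nat.cast_mul (t a1 * t a1), Nat.cast_mul (t a1), Nat.cast_mul (t a1)]
      calc (t a1 : ℝ) * t a1 * P ≤ (t a1 : ℝ) * ((1 + 1 / (4 * (M : ℝ))) * ((t a1).totient : ℝ)) *
            ((1 + 1 / (4 * (M : ℝ))) ^ (M - 1) * ∏ a ∈ S.erase a1, ((f a).totient : ℝ)) := by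
            have hnn : (0 : ℝ) ≤ (t a1 : ℝ) * ((1 + 1 / (4 * (M : ℝ))) * ((t a1).totient : ℝ)) := by
              positivity
            exact mul_le_mul (mul_le_mul_of_nonneg_left hcost1 (by positivity)) hprod
              (by positivity) hnn
        _ = _ := by ring
    have hpos : (0 : ℝ) < (((t a1 * (t a1).totient) *
          ∏ a ∈ S.erase a1, (2 * e ^ M * (t a * (t a).totient)) : ℕ) : ℝ) := by
      rw [← hk]
      exact_mod_cast Nat.totient_pos.mpr (Nat.mul_pos (Nat.mul_pos (htpos _) (htpos _)) hPpos)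
    have hfin := GD2_pow M hM
    have : ((t a1 * t a1 * P : ℕ) : ℝ) < 2 * (((t a1 * (t a1).totient) *
          ∏ a ∈ S.erase a1, (2 * e ^ M * (t a * (t a).totient)) : ℕ) : ℝ) := by
      refine lt_of_le_of_lt hall ?_
      exact mul_lt_mul_of_pos_right hfin hpos
    exact_mod_cast this
  · have ht6 : ∀ a, (t a).Coprime 6 := fun a => GD2_six _ (fun p hp h => hG.rough a p hp h)
    have hq6 : ∀ a, (q a).Coprime 6 := by
      intro a
      apply GD2_six
      intro p hp h
      rw [(Nat.prime_dvd_prime_iff_eq hp (hG.hp a)).mp h, hG.hq a]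
      have h1 := hG.ht a
      have h2 := pow_pos (show 0 < e from hG.he) M
      nlinarith
    refine Nat.Coprime.mul_left (Nat.Coprime.mul_left (ht6 _) (ht6 _)) ?_
    apply Nat.Coprime.prod_left
    intro a _
    exact Nat.Coprime.mul_left (hq6 a) (ht6 a)
  · rw [hk, prod_mul_distrib, prod_const, hcardE, ← mul_prod_erase S _ ha1]
    obtain ⟨m, rfl⟩ : ∃ m, M = m + 1 := ⟨M - 1, by omega⟩
    simp only [Nat.add_sub_cancel]
    rw [mul_pow, mul_pow, ← pow_mul, ← pow_mul, pow_succ 2 m, mul_comm (m + 1) m]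
    ring

end SAP
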