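import Pool.Agent.H18.SAP.Stmts

/-!
# Project SAP, module SHR
-/

set_option autoImplicit false

namespace SAP
open Finset

theorem shr : S_SHR := by
  intro K hK x hx t0 ht0 ht0x hp
  have hx0 : 0 < x := by linarith
  have hKr : (0 : ℝ) < K := by exact_mod_cast hK
  have hcard : t0.primeFactors.card ≤ 4 * K := by
    have h1 : (x ^ (1 / (K : ℝ))) ^ t0.primeFactors.card ≤ ∏ p ∈ t0.primeFactors, (p : ℝ) := by
      rw [← Finset.prod_const]
      exact Finset.prod_le_prod (fun _ _ => by positivity) hp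
    have h2 : (∏ p ∈ t0.primeFactors, (p : ℝ)) ≤ t0 := by
      have h2' := Nat.le_of_dvd ht0 (Nat.prod_primeFactors_dvd t0)
      rw [← Nat.cast_prod]
      exact_mod_cast h2'
    have h3 : (x ^ (1 / (K : ℝ))) ^ t0.primeFactors.card =
        x ^ ((t0.primeFactors.card : ℝ) / K) := by
      rw [← Real.rpow_natCast, ← Real.rpow_mul hx0.le]
      congr 1
      ring
    have h5 : 8 * x ≤ x ^ (4 : ℝ) := by
      have : x ^ (4 : ℝ) = x ^ 3 * x := by
        rw [show (4 : ℝ) = ((4 : ℕ) : ℝ) by norm_num, Real.rpow_natCast]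
        ring
      rw [this]
      have h6 : (8 : ℝ) ≤ x ^ 3 := by
        calc (8 : ℝ) = 2 ^ 3 := by norm_num
          _ ≤ x ^ 3 := by gcongr
      exact mul_le_mul_of_nonneg_right h6 hx0.le
    have h4 : x ^ ((t0.primeFactors.card : ℝ) / K) ≤ x ^ (4 : ℝ) := by
      rw [← h3]
      exact (h1.trans h2).trans (ht0x.trans h5)
    have h7 := (Real.rpow_le_rpow_left_iff (by linarith : 1 < x)).mp h4
    rw [div_le_iff₀ hKr] at h7
    exact_mod_cast h7
  refine ⟨hcard, ?_⟩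
  set N := ⌊8 * x⌋₊ with hN
  have hNx : (N : ℝ) ≤ 8 * x := Nat.floor_le (by positivity)
  have hsub : (Icc 1 N).filter (fun t : ℕ => ¬ t.Coprime t0) ⊆
      t0.primeFactors.biUnion (fun p => (Ioc 0 N).filter (fun t => p ∣ t)) := by
    intro t ht
    rw [mem_filter, mem_Icc] at ht
    obtain ⟨p, hpp, hp1, hp2⟩ := Nat.Prime.not_coprime_iff_dvd.mp ht.2
    rw [mem_biUnion]
    refine ⟨p, Nat.mem_primeFactors.mpr ⟨hpp, hp2, by omega⟩, ?_⟩
    rw [mem_filter, mem_Ioc]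
    exact ⟨⟨by omega, ht.1.2⟩, hp1⟩
  have h1 : (((Icc 1 N).filter (fun t : ℕ => ¬ t.Coprime t0)).card : ℝ) ≤
      ∑ p ∈ t0.primeFactors, ((N / p : ℕ) : ℝ) := by
    have h2 := (card_le_card hsub).trans card_biUnion_le
    have h3 : ∀ p ∈ t0.primeFactors, ((Ioc 0 N).filter (fun t => p ∣ t)).card = N / p :=
      fun p _ => Nat.Ioc_filter_dvd_card_eq_div N p
    rw [sum_congr rfl h3] at h2
    exact_mod_cast h2
  have h2 : ∀ p ∈ t0.primeFactors, ((N / p : ℕ) : ℝ) ≤ 8 * x ^ (1 - 1 / (K : ℝ)) := by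
    intro p hpp
    have h3 := hp p hpp
    have h4 : 0 < x ^ (1 / (K : ℝ)) := Real.rpow_pos_of_pos hx0 _
    rw [Real.rpow_sub hx0, Real.rpow_one]
    calc ((N / p : ℕ) : ℝ) ≤ (N : ℝ) / p := Nat.cast_div_le
      _ ≤ (8 * x) / x ^ (1 / (K : ℝ)) := div_le_div₀ (by positivity) hNx h4 h3
      _ = 8 * (x / x ^ (1 / (K : ℝ))) := by ring
  calc (((Icc 1 N).filter (fun t : ℕ => ¬ t.Coprime t0)).card : ℝ)
      ≤ ∑ p ∈ t0.primeFactors, ((N / p : ℕ) : ℝ) := h1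
    _ ≤ ∑ _p ∈ t0.primeFactors, 8 * x ^ (1 - 1 / (K : ℝ)) := sum_le_sum h2
    _ = (t0.primeFactors.card : ℝ) * (8 * x ^ (1 - 1 / (K : ℝ))) := by
      rw [sum_const, nsmul_eq_mul]
    _ ≤ ((4 * K : ℕ) : ℝ) * (8 * x ^ (1 - 1 / (K : ℝ))) := by
      have : (t0.primeFactors.card : ℝ) ≤ ((4 * K : ℕ) : ℝ) := by exact_mod_cast hcard
      have h5 : 0 < x ^ (1 - 1 / (K : ℝ)) := Real.rpow_pos_of_pos hx0 _
      gcongr
    _ = 32 * K * x ^ (1 - 1 / (K : ℝ)) := by push_cast; ring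

end SAP
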